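import Pool.Agent.Q188.SA.Per

/-!
# Periods of orbits inside a special alpha-limit set (MP_919dc2_an, Q1)
-/

set_option autoImplicit false

open Set Filter Topology Function

namespace Pool.Agent.Results.MP_919dc2_an.PeriodNorTwoN

/-- The special alpha-limit set of `x` under `f : [0,1] → [0,1]`: all limits of subsequences of
backward orbit branches of `x` in `[0,1]`. -/
def specialAlpha (f : ℝ → ℝ) (x : ℝ) : Set ℝ :=
  {y | ∃ z : ℕ → ℝ, z 0 = x ∧ (∀ k, z k ∈ Icc (0 : ℝ) 1) ∧ (∀ k, f (z (k + 1)) = z k) ∧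
    ∃ N : ℕ → ℕ, StrictMono N ∧ Tendsto (z ∘ N) atTop (𝓝 y)}

/-- The set `S` contains a periodic orbit of `f` in `[0,1]` of (least) period `n`. -/
def ContainsOrbit (f : ℝ → ℝ) (S : Set ℝ) (n : ℕ) : Prop :=
  ∃ q ∈ Icc (0 : ℝ) 1, 1 ≤ n ∧ f^[n] q = q ∧ (∀ m, 1 ≤ m → m < n → f^[m] q ≠ q) ∧
    ∀ i, f^[i] q ∈ S

/-- Let `f : [0,1] → [0,1]` be continuous and `x ∈ [0,1]`. If the special alpha-limit set of `x`
contains a periodic orbit of period three then for every `n ≥ 1` it contains a periodic orbit of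
period `n` or a periodic orbit of period `2 n`. -/
theorem result (f : ℝ → ℝ) (hf : ContinuousOn f (Icc 0 1)) (hm : MapsTo f (Icc 0 1) (Icc 0 1))
    (x : ℝ) (_hx : x ∈ Icc (0 : ℝ) 1) (h3 : ContainsOrbit f (specialAlpha f x) 3) (n : ℕ)
    (hn : 1 ≤ n) :
    ContainsOrbit f (specialAlpha f x) n ∨ ContainsOrbit f (specialAlpha f x) (2 * n) := by
  -- extend `f` to the line
  set F : ℝ → ℝ := fun t => f (projIcc 0 1 zero_le_one t) with hFdef
  have hF : Continuous F := by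
    have h1 : Continuous ((Icc (0 : ℝ) 1).restrict f) := continuousOn_iff_continuous_restrict.1 hf
    exact h1.comp continuous_projIcc
  have hFf : ∀ t ∈ Icc (0 : ℝ) 1, F t = f t := by
    intro t ht
    simp only [hFdef, projIcc_of_mem zero_le_one ht]
  have hFI : ∀ t, F t ∈ Icc (0 : ℝ) 1 := fun t => hm (projIcc 0 1 zero_le_one t).2
  have hit : ∀ t ∈ Icc (0 : ℝ) 1, ∀ i, F^[i] t = f^[i] t ∧ f^[i] t ∈ Icc (0 : ℝ) 1 := by
    intro t ht i
    induction i with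
    | zero => exact ⟨rfl, ht⟩
    | succ i ih =>
      rw [iterate_succ_apply', iterate_succ_apply', ih.1, hFf _ ih.2]
      exact ⟨rfl, hm ih.2⟩
  have hSA : specialAlpha f x = Pool.Agent.Q188.SA.SA F x := by
    ext y
    constructor
    · rintro ⟨z, hz0, hzI, hz, N, hN, hlim⟩
      exact ⟨z, hz0, fun k => by rw [hFf _ (hzI _)]; exact hz k, N, hN, hlim⟩
    · rintro ⟨z, hz0, hz, N, hN, hlim⟩
      have hzI : ∀ k, z k ∈ Icc (0 : ℝ) 1 := fun k => by rw [← hz k]; exact hFI _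
      exact ⟨z, hz0, hzI, fun k => by rw [← hFf _ (hzI _)]; exact hz k, N, hN, hlim⟩
  have hSAI : ∀ y ∈ specialAlpha f x, y ∈ Icc (0 : ℝ) 1 := by
    rintro y ⟨z, hz0, hzI, hz, N, hN, hlim⟩
    exact isClosed_Icc.mem_of_tendsto hlim (Eventually.of_forall fun j => hzI _)
  -- the point in the middle of the orbit of period three
  obtain ⟨p, hp, -, hp3, hpm, hpi⟩ := h3
  have hF3 : F (F (F p)) = p := by
    have := (hit p hp 3).1
    rw [hp3] at this
    exact this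
  have h01 : F p ≠ p := by
    have h1 := hpm 1 le_rfl (by norm_num)
    rwa [← (hit p hp 1).1] at h1
  have h02 : F (F p) ≠ p := by
    have h1 := hpm 2 (by norm_num) (by norm_num)
    rwa [← (hit p hp 2).1] at h1
  have h12 : F (F p) ≠ F p := fun h => h02 (by
    have h1 : F (F (F p)) = F (F p) := congrArg F h
    rw [hF3] at h1
    exact h1.symm)
  have hpS : ∀ i, F^[i] p ∈ Pool.Agent.Q188.SA.SA F x := fun i => by
    rw [(hit p hp i).1, ← hSA]
    exact hpi i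
  have hmid : ∃ b, F (F (F b)) = b ∧ ((F (F b) < b ∧ b < F b) ∨ (F b < b ∧ b < F (F b))) ∧
      b ∈ Pool.Agent.Q188.SA.SA F x := by
    have e1 : F (F (F (F p))) = F p := congrArg F hF3
    have e2 : F (F (F (F (F p)))) = F (F p) := congrArg F e1
    rcases lt_or_gt_of_ne h01 with h | h <;> rcases lt_or_gt_of_ne h02 with h' | h' <;>
      rcases lt_or_gt_of_ne h12 with h'' | h''
    · exact ⟨F p, e1, Or.inr ⟨h'', by rwa [hF3]⟩, hpS 1⟩
    · exact ⟨F (F p), e2, Or.inl ⟨by rwa [e1], by rwa [hF3]⟩, hpS 2⟩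
    · exact absurd (h''.trans h) (not_lt.2 h'.le)
    · exact ⟨p, hF3, Or.inr ⟨h, h'⟩, hpS 0⟩
    · exact ⟨p, hF3, Or.inl ⟨h', h⟩, hpS 0⟩
    · exact absurd (h'.trans h) (not_lt.2 h''.le)
    · exact ⟨F (F p), e2, Or.inr ⟨by rwa [hF3], by rwa [e1]⟩, hpS 2⟩
    · exact ⟨F p, e1, Or.inl ⟨by rwa [hF3], h''⟩, hpS 1⟩
  obtain ⟨b, hb3, hbt, hb⟩ := hmid
  obtain ⟨q, m, ⟨hm1, hmq, hmin⟩, hmn, hq⟩ := Pool.Agent.Q188.SA.core hF hb3 hbt hb hn
  have hqI : q ∈ Icc (0 : ℝ) 1 := hSAI q (by rw [hSA]; exact hq 0)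
  have horb : ContainsOrbit f (specialAlpha f x) m := by
    refine ⟨q, hqI, hm1, ?_, fun k hk1 hk2 => ?_, fun i => ?_⟩
    · rw [← (hit q hqI m).1]; exact hmq
    · rw [← (hit q hqI k).1]; exact hmin k hk1 hk2
    · rw [← (hit q hqI i).1, hSA]; exact hq i
  rcases hmn with rfl | rfl
  · exact Or.inl horb
  · exact Or.inr horb

end Pool.Agent.Results.MP_919dc2_an.PeriodNorTwoN
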